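import Mathlib

/-! # The functions `p_β` and `P_{α,β}` on the unit disc -/

set_option autoImplicit false

namespace Pool.Agent.X86.HA

/-- `p_β(z) = ((1 + z) / (1 - z)) ^ β` (principal power). -/
noncomputable def p (β : ℝ) (z : ℂ) : ℂ := ((1 + z) / (1 - z)) ^ (β : ℂ)

/-- `P_{α,β}(z) = {α r² + (1 - α)(1 - r²)} p_β(z) + (1 - α)(1 - r²) z p_β'(z)`, `r = |z|`. -/
noncomputable def P (α β : ℝ) (z : ℂ) : ℂ :=
  ((α * ‖z‖ ^ 2 + (1 - α) * (1 - ‖z‖ ^ 2) : ℝ) : ℂ) * p β z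
    + (((1 - α) * (1 - ‖z‖ ^ 2) : ℝ) : ℂ) * (z * deriv (p β) z)

end Pool.Agent.X86.HA
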